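import Pool.Agent.W743.GV.Stm

/-! Project GV: smoothness of the velocity. -/

open Set
open scoped ContDiff

namespace Pool.Agent.W74.GV

open Pool.Agent.W743.GV

lemma co_smooth (i : Fin 3) (U : Set E3) : ContDiffOn ℝ ∞ (fun y : E3 => y i) U :=
  (EuclideanSpace.proj i : E3 →L[ℝ] ℝ).contDiff.contDiffOn

lemma ss_smooth (U : Set E3) : ContDiffOn ℝ ∞ ss U :=
  ((co_smooth 0 U).pow 2).add ((co_smooth 1 U).pow 2)

theorem t_CU : S_CU := by
  intro d b f U p hD hS
  have hp := hS.cp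
  have hb : ContDiffOn ℝ ∞ (fun y => b (p y)) U := hD.cb.comp hp hS.pJ
  have hf : ContDiffOn ℝ ∞ (fun y => f (p y)) U := hD.cf.comp hp hS.pJ
  have hs := ss_smooth U
  have hM : ContDiffOn ℝ ∞ (fun y => MM b f (ss y) (p y)) U := by
    unfold MM
    exact (hs.mul ((contDiffOn_const.mul hp).sub ((hb.sub hs).pow 2))).sub
      ((hf.sub (hb.sub hs)).pow 2)
  have hR : ContDiffOn ℝ ∞ (fun y => √(MM b f (ss y) (p y))) U := by
    refine hM.sqrt ?_
    intro x hx
    exact (hD.Mpos (ss x) (hS.sJ x hx) (p x) (hS.pJ x hx)).ne'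
  have hw : ContDiffOn ℝ ∞ (fun y => wv b f y (p y)) U := by
    unfold wv
    exact hf.sub (hb.sub hs)
  have hs0 : ∀ x ∈ U, ss x ≠ 0 := by
    intro x hx
    have h1 := (hS.sJ x hx).1
    have h2 := hD.hd1
    have : 0 < ss x := by linarith
    exact this.ne'
  rw [contDiffOn_euclidean]
  intro i
  fin_cases i
  · exact (((co_smooth 0 U).mul hR).sub ((co_smooth 1 U).mul hw)).div hs hs0
  · exact (((co_smooth 1 U).mul hR).add ((co_smooth 0 U).mul hw)).div hs hs0
  · exact hb.sub hs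

end Pool.Agent.W74.GV
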